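import Mathlib

/-!
# Shift-invariant subspaces of `ℓ²(ℤ²)` with a covariant projection are trivial
-/

namespace Pool.Agent.Q166.GF

open scoped InnerProductSpace

noncomputable section

variable {E : Type*} [NormedAddCommGroup E] [InnerProductSpace ℂ E]

/-- Iterates of a linear isometry preserve inner products. -/
theorem iterate_inner (S : E →ₗᵢ[ℂ] E) (j : ℕ) (x y : E) :
    ⟪S^[j] x, S^[j] y⟫_ℂ = ⟪x, y⟫_ℂ := by
  induction j generalizing x y with
  | zero => rfl
  | succ j ih =>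
    rw [Function.iterate_succ_apply, Function.iterate_succ_apply, ih, S.inner_map_map]

theorem iterate_norm (S : E →ₗᵢ[ℂ] E) (j : ℕ) (x : E) : ‖S^[j] x‖ = ‖x‖ := by
  induction j generalizing x with
  | zero => rfl
  | succ j ih => rw [Function.iterate_succ_apply, ih, S.norm_map]

theorem iterate_mem (S : E →ₗᵢ[ℂ] E) (K : Submodule ℂ E) (hSK : ∀ x ∈ K, S x ∈ K) (j : ℕ) :
    ∀ x ∈ K, S^[j] x ∈ K := by
  induction j with
  | zero => intro x hx; exact hx
  | succ j ih =>
    intro x hx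
    rw [Function.iterate_succ_apply]
    exact ih _ (hSK x hx)

/-- The orbit of a unit wandering vector is orthonormal. -/
theorem orthonormal_orbit (S : E →ₗᵢ[ℂ] E) (K : Submodule ℂ E) (hSK : ∀ x ∈ K, S x ∈ K)
    (w : E) (hw : w ∈ K) (hw1 : ‖w‖ = 1) (hperp : ∀ x ∈ K, ⟪S x, w⟫_ℂ = 0) :
    Orthonormal ℂ (fun j : ℕ => S^[j] w) := by
  have hlt : ∀ i j : ℕ, i < j → ⟪S^[i] w, S^[j] w⟫_ℂ = 0 := by
    intro i j hij
    obtain ⟨m, rfl⟩ := Nat.exists_eq_add_of_lt hij
    have h1 : S^[i + m + 1] w = S^[i] (S (S^[m] w)) := by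
      rw [← Function.iterate_succ_apply' S, ← Function.iterate_add_apply]
      rfl
    rw [h1, iterate_inner]
    have h2 := hperp (S^[m] w) (iterate_mem S K hSK m w hw)
    rw [← inner_conj_symm, h2, map_zero]
  refine ⟨fun j => by rw [iterate_norm, hw1], ?_⟩
  intro i j hij
  rcases lt_or_gt_of_ne hij with h | h
  · exact hlt i j h
  · change ⟪S^[i] w, S^[j] w⟫_ℂ = 0
    rw [← inner_conj_symm, hlt j i h, map_zero]

/-- If there is a wandering vector and the projections of the basis vectors have constant norm,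
then every basis vector lies in the subspace. -/
theorem mem_of_wandering {ι : Type*} (e : HilbertBasis ι ℂ E) (S : E →ₗᵢ[ℂ] E)
    (K : Submodule ℂ E) [K.HasOrthogonalProjection] (hSK : ∀ x ∈ K, S x ∈ K)
    (hH : ∀ F : Finset ι, ∃ (k : ι) (j : ι → ℕ), Set.InjOn j F ∧ ∀ i ∈ F, S^[j i] (e i) = e k)
    (c : ℝ) (hc : ∀ k, ‖K.starProjection (e k)‖ ^ 2 = c)
    (w : E) (hw : w ∈ K) (hw1 : ‖w‖ = 1) (hperp : ∀ x ∈ K, ⟪S x, w⟫_ℂ = 0) :
    ∀ k, e k ∈ K := by
  have hon := orthonormal_orbit S K hSK w hw hw1 hperp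
  have hfin : ∀ F : Finset ι, ∑ i ∈ F, ‖⟪w, e i⟫_ℂ‖ ^ 2 ≤ c := by
    intro F
    obtain ⟨k, j, hj, hk⟩ := hH F
    have h1 : ∀ i ∈ F, ⟪w, e i⟫_ℂ = ⟪S^[j i] w, K.starProjection (e k)⟫_ℂ := by
      intro i hi
      have h2 : ⟪S^[j i] w, K.starProjection (e k)⟫_ℂ = ⟪S^[j i] w, e k⟫_ℂ := by
        rw [← K.inner_starProjection_left_eq_right,
          Submodule.starProjection_eq_self_iff.mpr (iterate_mem S K hSK _ w hw)]
      rw [h2, ← hk i hi, iterate_inner]
    rw [Finset.sum_congr rfl (fun i hi => by rw [h1 i hi])]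
    rw [← hc k]
    have h3 : ∑ i ∈ F, ‖⟪S^[j i] w, K.starProjection (e k)⟫_ℂ‖ ^ 2
        = ∑ l ∈ F.image j, ‖⟪S^[l] w, K.starProjection (e k)⟫_ℂ‖ ^ 2 := by
      rw [Finset.sum_image hj]
    rw [h3]
    exact hon.sum_inner_products_le _
  have hpars : HasSum (fun i => ‖⟪w, e i⟫_ℂ‖ ^ 2) (‖w‖ ^ 2) := by
    have h4 := e.hasSum_inner_mul_inner w w
    have h5 : ∀ i, ⟪w, e i⟫_ℂ * ⟪e i, w⟫_ℂ = ((‖⟪w, e i⟫_ℂ‖ ^ 2 : ℝ) : ℂ) := by
      intro i
      rw [← inner_conj_symm (e i) w, Complex.mul_conj, Complex.normSq_eq_norm_sq]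
    simp_rw [h5] at h4
    have h6 : ⟪w, w⟫_ℂ = ((‖w‖ ^ 2 : ℝ) : ℂ) := by
      rw [inner_self_eq_norm_sq_to_K]
      norm_cast
    rw [h6] at h4
    exact Complex.hasSum_ofReal.mp h4
  have hc1 : 1 ≤ c := by
    have h7 : ‖w‖ ^ 2 ≤ c := hasSum_le_of_sum_le hpars hfin
    rw [hw1] at h7
    linarith
  intro k
  rw [Submodule.mem_iff_norm_starProjection]
  have hek : ‖e k‖ = 1 := e.orthonormal.1 k
  have h8 : ‖K.starProjection (e k)‖ ≤ ‖e k‖ := K.norm_starProjection_apply_le _
  have h9 : 1 ≤ ‖K.starProjection (e k)‖ ^ 2 := by rw [hc k]; exact hc1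
  rw [hek] at *
  apply le_antisymm h8
  nlinarith [norm_nonneg (K.starProjection (e k))]

/-- Without basis vectors in `K`, the shift maps `K` onto `K`. -/
theorem exists_preimage {ι : Type*} [CompleteSpace E] (e : HilbertBasis ι ℂ E) (S : E →ₗᵢ[ℂ] E)
    (K : Submodule ℂ E) [CompleteSpace K] (hSK : ∀ x ∈ K, S x ∈ K)
    (hH : ∀ F : Finset ι, ∃ (k : ι) (j : ι → ℕ), Set.InjOn j F ∧ ∀ i ∈ F, S^[j i] (e i) = e k)
    (c : ℝ) (hc : ∀ k, ‖K.starProjection (e k)‖ ^ 2 = c)
    (hno : ∃ k, e k ∉ K) :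
    ∀ x ∈ K, ∃ y ∈ K, x = S y := by
  intro x hx
  set L : Submodule ℂ E := K.map S.toLinearMap with hL
  have : CompleteSpace L := LinearIsometry.completeSpace_map S K
  have hLK : L ≤ K := by
    rintro _ ⟨y, hy, rfl⟩
    exact hSK y hy
  set z := x - L.starProjection x with hz
  have hzK : z ∈ K := K.sub_mem hx (hLK (L.starProjection_apply_mem x))
  have hzL : ∀ y ∈ K, ⟪S y, z⟫_ℂ = 0 := by
    intro y hy
    have h1 : S y ∈ L := ⟨y, hy, rfl⟩
    have h2 := L.starProjection_inner_eq_zero x (S y) h1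
    rw [← inner_conj_symm, hz, h2, map_zero]
  by_cases hz0 : z = 0
  · have h3 : x = L.starProjection x := by
      rw [hz] at hz0
      exact sub_eq_zero.mp hz0
    have h4 : L.starProjection x ∈ L := L.starProjection_apply_mem x
    obtain ⟨y, hy, hy'⟩ := h4
    exact ⟨y, hy, by rw [h3]; exact hy'.symm⟩
  · exfalso
    obtain ⟨k, hk⟩ := hno
    apply hk
    have hzn : ‖z‖ ≠ 0 := norm_ne_zero_iff.mpr hz0
    refine mem_of_wandering e S K hSK hH c hc ((‖z‖⁻¹ : ℂ) • z) (K.smul_mem _ hzK) ?_ ?_ k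
    · rw [norm_smul, norm_inv, Complex.norm_real, norm_norm, inv_mul_cancel₀ hzn]
    · intro y hy
      rw [inner_smul_right, hzL y hy, mul_zero]

/-- The case of the index set `ℕ`: the subspace is zero. -/
theorem eq_bot_nat {ι : Type*} [CompleteSpace E] (e : HilbertBasis ι ℂ E) (S : E →ₗᵢ[ℂ] E)
    (σ : ℕ ≃ ι) (hS : ∀ k, S (e (σ k)) = e (σ (k + 1)))
    (K : Submodule ℂ E) [CompleteSpace K] (hSK : ∀ x ∈ K, S x ∈ K)
    (c : ℝ) (hc : ∀ k, ‖K.starProjection (e k)‖ ^ 2 = c)
    (hno : ∃ k, e k ∉ K) : K = ⊥ := by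
  have hit : ∀ j i, S^[j] (e (σ i)) = e (σ (i + j)) := by
    intro j
    induction j with
    | zero => intro i; rfl
    | succ j ih =>
      intro i
      rw [Function.iterate_succ_apply, hS, ih]
      congr 2
      omega
  have hH : ∀ F : Finset ι, ∃ (k : ι) (j : ι → ℕ), Set.InjOn j F ∧
      ∀ i ∈ F, S^[j i] (e i) = e k := by
    intro F
    set N := F.sup σ.symm with hN
    have hle : ∀ i ∈ F, σ.symm i ≤ N := fun i hi => Finset.le_sup (f := σ.symm) hi
    refine ⟨σ N, fun i => N - σ.symm i, ?_, ?_⟩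
    · intro i hi i' hi' h
      have h1 := hle i hi
      have h2 := hle i' hi'
      have h3 : σ.symm i = σ.symm i' := by
        simp only at h
        omega
      exact σ.symm.injective h3
    · intro i hi
      have h1 := hle i hi
      have h2 := hit (N - σ.symm i) (σ.symm i)
      rw [Equiv.apply_symm_apply] at h2
      rw [h2]
      congr 2
      omega
  have hpre := exists_preimage e S K hSK hH c hc hno
  -- the range of the shift is orthogonal to the first basis vector
  have hfirst : ∀ y : E, ⟪e (σ 0), S y⟫_ℂ = 0 := by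
    intro y
    have h1 : HasSum (fun i => ⟪e (σ 0), S (⟪e i, y⟫_ℂ • e i)⟫_ℂ) ⟪e (σ 0), S y⟫_ℂ := by
      have h2 := e.hasSum_repr y
      have h3 := h2.mapL (S.toContinuousLinearMap)
      have h4 := h3.mapL (innerSL ℂ (e (σ 0)))
      simpa [e.repr_apply_apply] using h4
    have h5 : ∀ i, ⟪e (σ 0), S (⟪e i, y⟫_ℂ • e i)⟫_ℂ = 0 := by
      intro i
      obtain ⟨m, rfl⟩ := σ.surjective i
      rw [map_smul, hS, inner_smul_right]
      rw [e.orthonormal.inner_eq_zero, mul_zero]
      intro h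
      have := σ.injective h
      omega
    simp_rw [h5] at h1
    exact h1.unique hasSum_zero
  have hall : ∀ m : ℕ, ∀ x ∈ K, ⟪e (σ m), x⟫_ℂ = 0 := by
    intro m
    induction m with
    | zero =>
      intro x hx
      obtain ⟨y, hy, rfl⟩ := hpre x hx
      exact hfirst y
    | succ m ih =>
      intro x hx
      obtain ⟨y, hy, rfl⟩ := hpre x hx
      rw [← hS, S.inner_map_map]
      exact ih y hy
  rw [eq_bot_iff]
  intro x hx
  have h6 := e.hasSum_repr x
  have h7 : ∀ i, e.repr x i • e i = 0 := by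
    intro i
    obtain ⟨m, rfl⟩ := σ.surjective i
    rw [e.repr_apply_apply, hall m x hx, zero_smul]
  simp_rw [h7] at h6
  exact h6.unique hasSum_zero

/-- A translation of `ℤ²` by a nonzero vector is never a bounded perturbation of an injective
enumeration by the integers. -/
theorem no_bounded_translation (κ : ℤ × ℤ → ℤ) (hκ : Function.Injective κ) (u : ℤ × ℤ)
    (hu : u ≠ 0) (C : ℕ) (hC : ∀ s, |κ (s + u) - κ s| ≤ C) : False := by
  set u' : ℤ × ℤ := (-u.2, u.1) with hu'
  set m : ℕ := 2 * C + 1 with hm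
  obtain ⟨A, hA⟩ : ∃ A : ℕ, ∀ i ∈ Finset.range m, |κ ((i : ℤ) • u')| ≤ A := by
    refine ⟨∑ i ∈ Finset.range m, (κ ((i : ℤ) • u')).natAbs, fun i hi => ?_⟩
    rw [Int.abs_eq_natAbs]
    exact_mod_cast Finset.single_le_sum (f := fun i : ℕ => (κ ((i : ℤ) • u')).natAbs)
      (fun _ _ => Nat.zero_le _) hi
  have hgrow : ∀ i ∈ Finset.range m, ∀ j : ℕ, |κ ((i : ℤ) • u' + (j : ℤ) • u)| ≤ A + C * j := by
    intro i hi j
    induction j with
    | zero => simpa using hA i hi
    | succ j ih =>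
      have h1 := hC ((i : ℤ) • u' + (j : ℤ) • u)
      have h2 : (i : ℤ) • u' + ((j + 1 : ℕ) : ℤ) • u = (i : ℤ) • u' + (j : ℤ) • u + u := by
        push_cast
        rw [add_smul, one_smul, add_assoc]
      rw [h2]
      push_cast
      have h3 := abs_add_le (κ ((i : ℤ) • u' + (j : ℤ) • u + u) - κ ((i : ℤ) • u' + (j : ℤ) • u))
        (κ ((i : ℤ) • u' + (j : ℤ) • u))
      rw [sub_add_cancel] at h3
      linarith
  set J : ℕ := 2 * A + 1 with hJ
  have hcard := Finset.card_le_card_of_injOn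
    (s := (Finset.range m) ×ˢ (Finset.range (J + 1)))
    (t := Finset.Icc (-((A : ℤ) + C * J)) ((A : ℤ) + C * J))
    (fun q => κ ((q.1 : ℤ) • u' + (q.2 : ℤ) • u)) ?_ ?_
  · rw [Finset.card_product, Finset.card_range, Finset.card_range, Int.card_Icc] at hcard
    have h4 : ((A : ℤ) + C * J + 1 - -((A : ℤ) + C * J)).toNat = 2 * A + 2 * C * J + 1 := by
      have : ((A : ℤ) + C * J + 1 - -((A : ℤ) + C * J)) = ((2 * A + 2 * C * J + 1 : ℕ) : ℤ) := by
        push_cast; ring
      rw [this, Int.toNat_natCast]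
    rw [h4] at hcard
    nlinarith
  · intro q hq
    simp only [Finset.coe_product, Set.mem_prod, Finset.mem_coe] at hq
    have h5 := hgrow q.1 hq.1 q.2
    have h6 : (q.2 : ℤ) ≤ J := by
      have := Finset.mem_range.mp hq.2
      exact_mod_cast Nat.lt_succ_iff.mp this
    have h7 : (C : ℤ) * q.2 ≤ C * J := mul_le_mul_of_nonneg_left h6 (by positivity)
    rw [Finset.coe_Icc, Set.mem_Icc, ← abs_le]
    linarith
  · intro q hq q' hq' h
    have h8 := hκ h
    have h9 := congrArg Prod.fst h8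
    have h10 := congrArg Prod.snd h8
    simp only [hu', Prod.smul_mk, smul_eq_mul, Prod.fst_add, Prod.snd_add, Prod.smul_fst,
      Prod.smul_snd] at h9 h10
    have hpos : 0 < u.1 ^ 2 + u.2 ^ 2 := by
      have : u.1 ≠ 0 ∨ u.2 ≠ 0 := by
        by_contra hcon
        push Not at hcon
        exact hu (Prod.ext hcon.1 hcon.2)
      rcases this with h | h
      · have := sq_pos_of_ne_zero h (a := u.1)
        positivity
      · have := sq_pos_of_ne_zero h (a := u.2)
        positivity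
    have h11 : ((q.1 : ℤ) - q'.1) * (u.1 ^ 2 + u.2 ^ 2) = 0 := by
      linear_combination (-u.2) * h9 + u.1 * h10
    have h12 : ((q.2 : ℤ) - q'.2) * (u.1 ^ 2 + u.2 ^ 2) = 0 := by
      linear_combination (u.1) * h9 + u.2 * h10
    have h13 : (q.1 : ℤ) - q'.1 = 0 := by
      rcases mul_eq_zero.mp h11 with h | h
      · exact h
      · exact absurd h hpos.ne'
    have h14 : (q.2 : ℤ) - q'.2 = 0 := by
      rcases mul_eq_zero.mp h12 with h | h
      · exact h
      · exact absurd h hpos.ne'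
    apply Prod.ext
    · omega
    · omega

theorem inner_proj_self (K : Submodule ℂ E) [K.HasOrthogonalProjection] (x : E) :
    ⟪x, K.starProjection x⟫_ℂ = ((‖K.starProjection x‖ ^ 2 : ℝ) : ℂ) := by
  have h1 : ⟪x, K.starProjection x⟫_ℂ = ⟪K.starProjection x, K.starProjection x⟫_ℂ := by
    rw [K.inner_starProjection_left_eq_right,
      Submodule.starProjection_eq_self_iff.mpr (K.starProjection_apply_mem x)]
  rw [h1, inner_self_eq_norm_sq_to_K]
  norm_cast

/-- Covariance makes the norms of the projections of the basis vectors constant. -/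
theorem norm_proj_const (e : HilbertBasis (ℤ × ℤ) ℂ E)
    (K : Submodule ℂ E) [K.HasOrthogonalProjection]
    (hcov : ∀ u v w, ‖⟪e (v + u), K.starProjection (e (w + u))⟫_ℂ‖
      = ‖⟪e v, K.starProjection (e w)⟫_ℂ‖) (k : ℤ × ℤ) :
    ‖K.starProjection (e k)‖ ^ 2 = ‖K.starProjection (e 0)‖ ^ 2 := by
  have h := hcov k 0 0
  rw [zero_add, inner_proj_self, inner_proj_self, Complex.norm_real, Complex.norm_real,
    Real.norm_of_nonneg (by positivity), Real.norm_of_nonneg (by positivity)] at h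
  exact h

/-- The case of the index set `ℤ`: the subspace is zero. -/
theorem eq_bot_int [CompleteSpace E] (e : HilbertBasis (ℤ × ℤ) ℂ E) (S : E →ₗᵢ[ℂ] E)
    (σ : ℤ ≃ ℤ × ℤ) (hS : ∀ k, S (e (σ k)) = e (σ (k + 1)))
    (K : Submodule ℂ E) [CompleteSpace K] (hSK : ∀ x ∈ K, S x ∈ K)
    (hcov : ∀ u v w, ‖⟪e (v + u), K.starProjection (e (w + u))⟫_ℂ‖
      = ‖⟪e v, K.starProjection (e w)⟫_ℂ‖)
    (hno : ∃ k, e k ∉ K) : K = ⊥ := by
  have hc := norm_proj_const e K hcov
  have hit : ∀ (j : ℕ) (i : ℤ), S^[j] (e (σ i)) = e (σ (i + j)) := by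
    intro j
    induction j with
    | zero => intro i; simp
    | succ j ih =>
      intro i
      rw [Function.iterate_succ_apply, hS, ih]
      congr 2
      push_cast
      ring
  have hH : ∀ F : Finset (ℤ × ℤ), ∃ (k : ℤ × ℤ) (j : ℤ × ℤ → ℕ), Set.InjOn j F ∧
      ∀ i ∈ F, S^[j i] (e i) = e k := by
    intro F
    obtain ⟨N, hN⟩ : ∃ N : ℤ, ∀ i ∈ F, σ.symm i ≤ N := by
      obtain ⟨N, hN⟩ := (F.image σ.symm).bddAbove
      refine ⟨N, fun i hi => hN ?_⟩
      exact Finset.mem_coe.mpr (Finset.mem_image_of_mem _ hi)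
    refine ⟨σ N, fun i => (N - σ.symm i).toNat, ?_, ?_⟩
    · intro i hi i' hi' h
      have h1 := hN i hi
      have h2 := hN i' hi'
      have h3 : σ.symm i = σ.symm i' := by
        simp only at h
        omega
      exact σ.symm.injective h3
    · intro i hi
      have h1 := hN i hi
      have h2 := hit (N - σ.symm i).toNat (σ.symm i)
      rw [Equiv.apply_symm_apply] at h2
      rw [h2]
      congr 2
      omega
  have hpre := exists_preimage e S K hSK hH _ hc hno
  have hcomm : ∀ x, K.starProjection (S x) = S (K.starProjection x) := by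
    intro x
    refine Submodule.eq_starProjection_of_mem_of_inner_eq_zero
      (hSK _ (K.starProjection_apply_mem x)) ?_
    intro w hw
    obtain ⟨y, hy, rfl⟩ := hpre w hw
    rw [← map_sub, S.inner_map_map]
    exact K.starProjection_inner_eq_zero x y hy
  have hstep : ∀ k l : ℤ, ⟪e (σ (k + (l + 1))), K.starProjection (e (σ (l + 1)))⟫_ℂ
      = ⟪e (σ (k + l)), K.starProjection (e (σ l))⟫_ℂ := by
    intro k l
    have h1 : k + (l + 1) = (k + l) + 1 := by ring
    rw [h1, ← hS, ← hS, hcomm, S.inner_map_map]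
  have hinv : ∀ k l : ℤ, ⟪e (σ (k + l)), K.starProjection (e (σ l))⟫_ℂ
      = ⟪e (σ k), K.starProjection (e (σ 0))⟫_ℂ := by
    intro k l
    induction l using Int.induction_on with
    | zero => rw [add_zero]
    | succ i ih => rw [hstep, ih]
    | pred i ih =>
      have h2 := hstep k (-(i : ℤ) - 1)
      rw [sub_add_cancel] at h2
      rw [← h2, ih]
  have hsum : Summable (fun n : ℤ => ‖⟪e (σ n), K.starProjection (e (σ 0))⟫_ℂ‖ ^ 2) := by
    have h3 := e.orthonormal.inner_products_summable (K.starProjection (e (σ 0)))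
    exact (Equiv.summable_iff σ).mpr h3
  have hoff : ∀ u : ℤ × ℤ, u ≠ 0 → ⟪e u, K.starProjection (e 0)⟫_ℂ = 0 := by
    intro u hu
    by_contra hne
    set D := ‖⟪e u, K.starProjection (e 0)⟫_ℂ‖ with hD
    have hDpos : 0 < D := norm_pos_iff.mpr hne
    have hall : ∀ s, ‖⟪e (σ (σ.symm (s + u) - σ.symm s)), K.starProjection (e (σ 0))⟫_ℂ‖ = D := by
      intro s
      have h4 := hcov s u 0
      rw [zero_add] at h4
      rw [← hinv _ (σ.symm s), sub_add_cancel, Equiv.apply_symm_apply, Equiv.apply_symm_apply,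
        add_comm s u, h4]
    have hfin : {n : ℤ | D ≤ ‖⟪e (σ n), K.starProjection (e (σ 0))⟫_ℂ‖}.Finite := by
      have h5 := hsum.tendsto_cofinite_zero
      have h6 := h5.eventually_lt_const (u := D ^ 2) (by positivity)
      have h7 : {n : ℤ | ¬ ‖⟪e (σ n), K.starProjection (e (σ 0))⟫_ℂ‖ ^ 2 < D ^ 2}.Finite :=
        Filter.eventually_cofinite.mp h6
      refine h7.subset ?_
      intro n hn
      simp only [Set.mem_ofPred_eq, not_lt] at hn ⊢
      exact pow_le_pow_left₀ hDpos.le hn 2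
    obtain ⟨C, hC⟩ : ∃ C : ℕ, ∀ n ∈ {n : ℤ | D ≤ ‖⟪e (σ n), K.starProjection (e (σ 0))⟫_ℂ‖},
        |n| ≤ C := by
      refine ⟨∑ n ∈ hfin.toFinset, n.natAbs, fun n hn => ?_⟩
      rw [Int.abs_eq_natAbs]
      exact_mod_cast Finset.single_le_sum (f := fun n : ℤ => n.natAbs)
        (fun _ _ => Nat.zero_le _) (hfin.mem_toFinset.mpr hn)
    exact no_bounded_translation σ.symm σ.symm.injective u hu C (fun s => hC _ (hall s).ge)
  have hP0 : K.starProjection (e 0) = ((‖K.starProjection (e 0)‖ ^ 2 : ℝ) : ℂ) • e 0 := by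
    have h8 := e.hasSum_repr (K.starProjection (e 0))
    have h9 : HasSum (fun i => e.repr (K.starProjection (e 0)) i • e i)
        (e.repr (K.starProjection (e 0)) 0 • e 0) := by
      apply hasSum_single
      intro i hi
      rw [e.repr_apply_apply, hoff i hi, zero_smul]
    have h10 := h8.unique h9
    rw [e.repr_apply_apply, inner_proj_self] at h10
    exact h10
  by_cases hd : ‖K.starProjection (e 0)‖ ^ 2 = 0
  · rw [eq_bot_iff]
    intro x hx
    have h6 := e.hasSum_repr x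
    have h7 : ∀ i, e.repr x i • e i = 0 := by
      intro i
      have h11 : K.starProjection (e i) = 0 := by
        have := hc i
        rw [hd] at this
        exact norm_eq_zero.mp (pow_eq_zero_iff (two_ne_zero) |>.mp this)
      have h12 : ⟪e i, x⟫_ℂ = 0 := by
        rw [← Submodule.starProjection_eq_self_iff.mpr hx, ← K.inner_starProjection_left_eq_right,
          h11, inner_zero_left]
      rw [e.repr_apply_apply, h12, zero_smul]
    simp_rw [h7] at h6
    exact h6.unique hasSum_zero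
  · exfalso
    have h13 : e 0 ∈ K := by
      have h14 : ∀ d : ℂ, d ≠ 0 → K.starProjection (e 0) = d • e 0 → e 0 ∈ K := by
        intro d hd0 hd1
        have h15 : e 0 = d⁻¹ • K.starProjection (e 0) := by
          rw [hd1, smul_smul, inv_mul_cancel₀ hd0, one_smul]
        rw [h15]
        exact K.smul_mem _ (K.starProjection_apply_mem _)
      refine h14 _ ?_ hP0
      exact_mod_cast hd
    obtain ⟨k, hk⟩ := hno
    apply hk
    rw [Submodule.mem_iff_norm_starProjection]
    have h16 : ‖K.starProjection (e 0)‖ = 1 := by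
      rw [Submodule.starProjection_eq_self_iff.mpr h13]
      exact e.orthonormal.1 0
    have h17 := hc k
    rw [h16] at h17
    rw [e.orthonormal.1 k]
    nlinarith [norm_nonneg (K.starProjection (e k))]

end

end Pool.Agent.Q166.GF
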