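import Pool.Agent.Q166.GF.Abs

/-!
# Frames, their synthesis operators, and operator representations
-/

namespace Pool.Agent.Q166.GF

open scoped InnerProductSpace ENNReal

noncomputable section

variable {ι : Type*} {H : Type*} [NormedAddCommGroup H] [InnerProductSpace ℂ H]

/-- A frame for a Hilbert space. -/
def IsFrame (f : ι → H) : Prop :=
  ∃ A B : ℝ, 0 < A ∧ 0 < B ∧ ∀ x : H, Summable (fun i => ‖⟪f i, x⟫_ℂ‖ ^ 2) ∧
    A * ‖x‖ ^ 2 ≤ ∑' i, ‖⟪f i, x⟫_ℂ‖ ^ 2 ∧ ∑' i, ‖⟪f i, x⟫_ℂ‖ ^ 2 ≤ B * ‖x‖ ^ 2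

/-- The standard Hilbert basis of `ℓ²`. -/
def stdBasis (ι : Type*) : HilbertBasis ι ℂ (lp (fun _ : ι => ℂ) 2) :=
  HilbertBasis.ofRepr (LinearIsometryEquiv.refl ℂ _)

theorem stdBasis_apply [DecidableEq ι] (i : ι) :
    stdBasis ι i = lp.single 2 i (1 : ℂ) := by
  rw [← HilbertBasis.repr_symm_single]
  rfl

theorem l2_norm_sq (y : lp (fun _ : ι => ℂ) 2) : HasSum (fun i => ‖y i‖ ^ 2) (‖y‖ ^ 2) := by
  have h := lp.hasSum_inner (𝕜 := ℂ) y y
  have h5 : ∀ i, ⟪y i, y i⟫_ℂ = ((‖y i‖ ^ 2 : ℝ) : ℂ) := by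
    intro i
    rw [inner_self_eq_norm_sq_to_K]
    norm_cast
  simp_rw [h5] at h
  rw [inner_self_eq_norm_sq_to_K] at h
  have h6 : ((‖y‖ : ℂ) ^ 2) = ((‖y‖ ^ 2 : ℝ) : ℂ) := by norm_cast
  have h7 : HasSum (fun i => ((‖y i‖ ^ 2 : ℝ) : ℂ)) ((‖y‖ ^ 2 : ℝ) : ℂ) := by
    rw [← h6]
    exact h
  exact Complex.hasSum_ofReal.mp h7

/-- The synthesis operator of a frame. -/
theorem exists_synthesis [CompleteSpace H] (f : ι → H) (hf : IsFrame f) :
    ∃ U : lp (fun _ : ι => ℂ) 2 →L[ℂ] H, (∀ i, U (stdBasis ι i) = f i) ∧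
      Function.Surjective U := by
  classical
  obtain ⟨A, B, hA, hB, hAB⟩ := hf
  have hmem : ∀ x : H, Memℓp (fun i => ⟪f i, x⟫_ℂ) 2 := by
    intro x
    apply memℓp_gen
    simpa using (hAB x).1
  let an0 : H →ₗ[ℂ] lp (fun _ : ι => ℂ) 2 :=
    { toFun := fun x => ⟨fun i => ⟪f i, x⟫_ℂ, hmem x⟩
      map_add' := by
        intro x y
        apply Subtype.ext
        funext i
        change ⟪f i, x + y⟫_ℂ = ⟪f i, x⟫_ℂ + ⟪f i, y⟫_ℂ
        rw [inner_add_right]
      map_smul' := by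
        intro c x
        apply Subtype.ext
        funext i
        change ⟪f i, c • x⟫_ℂ = c * ⟪f i, x⟫_ℂ
        rw [inner_smul_right] }
  have hnorm : ∀ x, ‖an0 x‖ ^ 2 = ∑' i, ‖⟪f i, x⟫_ℂ‖ ^ 2 := by
    intro x
    have := l2_norm_sq (an0 x)
    exact this.tsum_eq.symm
  have hbound : ∀ x, ‖an0 x‖ ≤ Real.sqrt B * ‖x‖ := by
    intro x
    have h1 : ‖an0 x‖ ^ 2 ≤ (Real.sqrt B * ‖x‖) ^ 2 := by
      rw [hnorm, mul_pow, Real.sq_sqrt hB.le]
      exact (hAB x).2.2
    exact (pow_le_pow_iff_left₀ (norm_nonneg _) (by positivity) two_ne_zero).mp h1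
  let an : H →L[ℂ] lp (fun _ : ι => ℂ) 2 := an0.mkContinuous (Real.sqrt B) hbound
  have han : ∀ x i, (an x) i = ⟪f i, x⟫_ℂ := fun x i => rfl
  have hanorm : ∀ x, A * ‖x‖ ^ 2 ≤ ‖an x‖ ^ 2 := by
    intro x
    have : ‖an x‖ ^ 2 = ∑' i, ‖⟪f i, x⟫_ℂ‖ ^ 2 := hnorm x
    rw [this]
    exact (hAB x).2.1
  let U := ContinuousLinearMap.adjoint an
  refine ⟨U, ?_, ?_⟩
  · intro i
    apply ext_inner_right ℂ
    intro x
    rw [ContinuousLinearMap.adjoint_inner_left, stdBasis_apply, lp.inner_single_left, han]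
    simp
  · -- the frame operator is onto
    set F : H →L[ℂ] H := U.comp an with hF
    have hFx : ∀ x, ⟪F x, x⟫_ℂ = ((‖an x‖ ^ 2 : ℝ) : ℂ) := by
      intro x
      change ⟪(ContinuousLinearMap.adjoint an) (an x), x⟫_ℂ = _
      rw [ContinuousLinearMap.adjoint_inner_left, inner_self_eq_norm_sq_to_K]
      norm_cast
    have hFlow : ∀ x, A * ‖x‖ ≤ ‖F x‖ := by
      intro x
      by_cases hx : ‖x‖ = 0
      · rw [hx, mul_zero]; exact norm_nonneg _
      · have hxpos : 0 < ‖x‖ := lt_of_le_of_ne (norm_nonneg _) (Ne.symm hx)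
        have h1 : A * ‖x‖ ^ 2 ≤ ‖F x‖ * ‖x‖ := by
          refine (hanorm x).trans ?_
          have h2 := norm_inner_le_norm (𝕜 := ℂ) (F x) x
          rw [hFx, Complex.norm_real, Real.norm_of_nonneg (by positivity)] at h2
          exact h2
        have h3 : (A * ‖x‖) * ‖x‖ ≤ ‖F x‖ * ‖x‖ := by
          calc (A * ‖x‖) * ‖x‖ = A * ‖x‖ ^ 2 := by ring
            _ ≤ _ := h1
        exact le_of_mul_le_mul_right h3 hxpos
    have hanti : AntilipschitzWith (Real.toNNReal A)⁻¹ F := by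
      apply F.antilipschitz_of_bound
      intro x
      have h4 := hFlow x
      rw [NNReal.coe_inv, Real.coe_toNNReal A hA.le]
      rw [inv_mul_eq_div, le_div_iff₀ hA]
      linarith
    have hclosed : IsClosed (Set.range F) := hanti.isClosed_range F.uniformContinuous
    have hclosed' : IsClosed ((F.range : Submodule ℂ H) : Set H) := by
      have h10 : ((F.range : Submodule ℂ H) : Set H) = Set.range F := by
        ext y
        exact Iff.rfl
      rw [h10]
      exact hclosed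
    have hcomp : CompleteSpace (F.range : Submodule ℂ H) := hclosed'.completeSpace_coe
    have hperp : (F.range : Submodule ℂ H)ᗮ = ⊥ := by
      rw [eq_bot_iff]
      intro x hx
      have h5 : ⟪F x, x⟫_ℂ = 0 := hx (F x) ⟨x, rfl⟩
      rw [hFx] at h5
      have h6 : ‖an x‖ ^ 2 = 0 := by exact_mod_cast h5
      have h7 := hanorm x
      rw [h6] at h7
      have h8 : ‖x‖ ^ 2 ≤ 0 := by
        by_contra hcon
        push Not at hcon
        nlinarith [mul_pos hA hcon]
      have h9 : ‖x‖ = 0 := by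
        have : ‖x‖ ^ 2 = 0 := le_antisymm h8 (by positivity)
        exact pow_eq_zero_iff two_ne_zero |>.mp this
      simpa using norm_eq_zero.mp h9
    have htop : (F.range : Submodule ℂ H) = ⊤ := Submodule.orthogonal_eq_bot_iff.mp hperp
    intro y
    have hy : y ∈ (F.range : Submodule ℂ H) := by rw [htop]; trivial
    obtain ⟨x, hx⟩ := hy
    exact ⟨an x, hx⟩

/-- The linear isometry sending a Hilbert basis to an orthonormal family. -/
theorem exists_isometry {E : Type*} [NormedAddCommGroup E] [InnerProductSpace ℂ E]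
    [CompleteSpace E] (e : HilbertBasis ι ℂ E) (w : ι → E) (hw : Orthonormal ℂ w) :
    ∃ S : E →ₗᵢ[ℂ] E, ∀ i, S (e i) = w i := by
  classical
  refine ⟨hw.orthogonalFamily.linearIsometry.comp e.repr.toLinearIsometry, fun i => ?_⟩
  change hw.orthogonalFamily.linearIsometry (e.repr (e i)) = w i
  rw [e.repr_self i, hw.orthogonalFamily.linearIsometry_apply_single]
  simp

/-- Two continuous linear maps agreeing on a Hilbert basis agree. -/
theorem clm_ext {E : Type*} [NormedAddCommGroup E] [InnerProductSpace ℂ E]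
    (e : HilbertBasis ι ℂ E) (U V : E →L[ℂ] H) (h : ∀ i, U (e i) = V (e i)) : U = V := by
  ext x
  have h1 := (e.hasSum_repr x).mapL U
  have h2 := (e.hasSum_repr x).mapL V
  have h3 : ∀ i, U (e.repr x i • e i) = V (e.repr x i • e i) := by
    intro i
    rw [map_smul, map_smul, h]
  simp_rw [h3] at h1
  exact h1.unique h2

/-- An isometry whose range contains a Hilbert basis is onto. -/
theorem surjective_of_basis {E : Type*} [NormedAddCommGroup E] [InnerProductSpace ℂ E]
    [CompleteSpace E] (e : HilbertBasis ι ℂ E) (S : E →ₗᵢ[ℂ] E)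
    (h : ∀ i, ∃ y, S y = e i) : Function.Surjective S := by
  have hclosed : IsClosed (Set.range S) := S.isometry.isClosedEmbedding.isClosed_range
  have h1 : Submodule.span ℂ (Set.range e) ≤ S.toLinearMap.range := by
    rw [Submodule.span_le]
    rintro _ ⟨i, rfl⟩
    obtain ⟨y, hy⟩ := h i
    exact ⟨y, hy⟩
  have h2 : (Submodule.span ℂ (Set.range e)).topologicalClosure ≤ S.toLinearMap.range := by
    apply Submodule.topologicalClosure_minimal _ h1
    have h10 : ((S.toLinearMap.range : Submodule ℂ E) : Set E) = Set.range S := by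
      ext y
      exact Iff.rfl
    rw [h10]
    exact hclosed
  rw [e.dense_span] at h2
  intro y
  have h3 : y ∈ S.toLinearMap.range := h2 trivial
  obtain ⟨x, hx⟩ := h3
  exact ⟨x, hx⟩

/-- Kernel invariance: if shifting the coefficients is bounded on finite sums, the kernel of the
synthesis operator is invariant under the shift. -/
theorem ker_invariant {E : Type*} [NormedAddCommGroup E] [InnerProductSpace ℂ E]
    (e : HilbertBasis ι ℂ E) (U : E →L[ℂ] H) (S : E →ₗᵢ[ℂ] E) (C : ℝ)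
    (hC : ∀ (F : Finset ι) (c : ι → ℂ),
      ‖∑ i ∈ F, c i • U (S (e i))‖ ≤ C * ‖∑ i ∈ F, c i • U (e i)‖) :
    ∀ x ∈ U.ker, S x ∈ U.ker := by
  intro x hx
  have hx0 : U x = 0 := hx
  have h1 : HasSum (fun i => e.repr x i • U (e i)) 0 := by
    have h := (e.hasSum_repr x).mapL U
    rw [hx0] at h
    simpa using h
  have h2 : HasSum (fun i => e.repr x i • U (S (e i))) (U (S x)) := by
    have h := (e.hasSum_repr x).mapL (U.comp S.toContinuousLinearMap)
    simpa using h
  have h3 : Filter.Tendsto (fun F : Finset ι => C * ‖∑ i ∈ F, e.repr x i • U (e i)‖)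
      Filter.atTop (nhds (C * ‖(0 : H)‖)) := by
    have h6 : Filter.Tendsto (fun F : Finset ι => ‖∑ i ∈ F, e.repr x i • U (e i)‖)
      Filter.atTop (nhds ‖(0 : H)‖) := Filter.Tendsto.norm h1
    exact h6.const_mul C
  have h4 : Filter.Tendsto (fun F : Finset ι => ‖∑ i ∈ F, e.repr x i • U (S (e i))‖)
      Filter.atTop (nhds ‖U (S x)‖) := Filter.Tendsto.norm h2
  have h5 : ‖U (S x)‖ ≤ C * ‖(0 : H)‖ :=
    le_of_tendsto_of_tendsto' h4 h3 (fun F => hC F _)
  rw [norm_zero, mul_zero] at h5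
  exact norm_le_zero_iff.mp h5

/-- Covariance of the projection onto the kernel of the synthesis operator. -/
theorem covariance {E : Type*} [NormedAddCommGroup E] [InnerProductSpace ℂ E]
    [CompleteSpace E] (e : HilbertBasis (ℤ × ℤ) ℂ E) (U : E →L[ℂ] H)
    (f : ℤ × ℤ → H) (hU : ∀ v, U (e v) = f v)
    (π : ℤ × ℤ → H →ₗᵢ[ℂ] H) (γ : ℤ × ℤ → ℤ × ℤ → ℂ) (hγ : ∀ u v, ‖γ u v‖ = 1)
    (hπ : ∀ u v, π u (f v) = γ u v • f (v + u)) [CompleteSpace U.ker] (u v w : ℤ × ℤ) :
    ‖⟪e (v + u), U.ker.starProjection (e (w + u))⟫_ℂ‖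
      = ‖⟪e v, U.ker.starProjection (e w)⟫_ℂ‖ := by
  have hγ0 : ∀ u v, γ u v ≠ 0 := by
    intro u v h
    have := hγ u v
    rw [h, norm_zero] at this
    exact zero_ne_one this
  -- the twisted translation
  obtain ⟨τ, hτ⟩ : ∃ τ : E →ₗᵢ[ℂ] E, ∀ v, τ (e v) = γ u v • e (v + u) := by
    apply exists_isometry
    have hinj : Function.Injective (fun v : ℤ × ℤ => v + u) := add_left_injective u
    have hon := e.orthonormal.comp _ hinj
    constructor
    · intro v
      rw [norm_smul, hγ, one_mul]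
      exact hon.1 v
    · intro v v' hv
      change ⟪γ u v • e (v + u), γ u v' • e (v' + u)⟫_ℂ = 0
      rw [inner_smul_left, inner_smul_right]
      have := hon.2 hv
      simp only [Function.comp_apply] at this
      rw [this]
      simp
  have hsurj : Function.Surjective τ := by
    apply surjective_of_basis e
    intro i
    refine ⟨(γ u (i - u))⁻¹ • e (i - u), ?_⟩
    rw [map_smul, hτ, smul_smul, inv_mul_cancel₀ (hγ0 _ _), one_smul, sub_add_cancel]
  have hUτ : ∀ x, U (τ x) = π u (U x) := by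
    have h : U.comp τ.toContinuousLinearMap = (π u).toContinuousLinearMap.comp U := by
      apply clm_ext e
      intro i
      simp only [ContinuousLinearMap.comp_apply, LinearIsometry.coe_toContinuousLinearMap]
      rw [hτ, map_smul, hU, hU, hπ]
    intro x
    exact DFunLike.congr_fun h x
  have hker : ∀ x, τ x ∈ U.ker ↔ x ∈ U.ker := by
    intro x
    have h1 : τ x ∈ U.ker ↔ U (τ x) = 0 := Iff.rfl
    have h2 : x ∈ U.ker ↔ U x = 0 := Iff.rfl
    rw [h1, h2, hUτ]
    constructor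
    · intro h
      have h3 := (π u).norm_map (U x)
      rw [h, norm_zero] at h3
      exact norm_eq_zero.mp h3.symm
    · intro h
      rw [h, map_zero]
  have hcomm : ∀ x, U.ker.starProjection (τ x) = τ (U.ker.starProjection x) := by
    intro x
    refine Submodule.eq_starProjection_of_mem_of_inner_eq_zero
      ((hker _).mpr (U.ker.starProjection_apply_mem x)) ?_
    intro y hy
    obtain ⟨z, rfl⟩ := hsurj y
    rw [← map_sub, τ.inner_map_map]
    exact U.ker.starProjection_inner_eq_zero x z ((hker z).mp hy)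
  have h6 : ∀ v, e (v + u) = (γ u v)⁻¹ • τ (e v) := by
    intro v
    rw [hτ, smul_smul, inv_mul_cancel₀ (hγ0 _ _), one_smul]
  rw [h6 v, h6 w, map_smul, hcomm, inner_smul_left, inner_smul_right, τ.inner_map_map, norm_mul,
    norm_mul, RCLike.norm_conj, norm_inv, norm_inv, hγ, hγ, inv_one, one_mul, one_mul]

end

end Pool.Agent.Q166.GF
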