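import Pool.Agent.Q166.GF.Frame

/-!
# Bounded operator representations of orderings of a frame
-/

namespace Pool.Agent.Q166.GF

open scoped InnerProductSpace ENNReal

noncomputable section

variable {ι : Type*} {H : Type*} [NormedAddCommGroup H] [InnerProductSpace ℂ H]

/-- `f k = T^k φ` for all `k ∈ ℕ`, with `T` a bounded linear operator on the span of the family. -/
def RepNatAux (f : ℕ → H) : Prop :=
  ∃ (φ : Submodule.span ℂ (Set.range f))
    (T : Submodule.span ℂ (Set.range f) →L[ℂ] Submodule.span ℂ (Set.range f)),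
    ∀ k : ℕ, (((T ^ k) φ : Submodule.span ℂ (Set.range f)) : H) = f k

/-- `f k = T^k φ` for all `k ∈ ℤ`, with `T` a bounded linear bijection of the span of the
family. -/
def RepIntAux (f : ℤ → H) : Prop :=
  ∃ (φ : Submodule.span ℂ (Set.range f))
    (T : Submodule.span ℂ (Set.range f) ≃ₗ[ℂ] Submodule.span ℂ (Set.range f)),
    (∃ C : ℝ, ∀ x, ‖T x‖ ≤ C * ‖x‖) ∧
    ∀ k : ℤ, (((T ^ k) φ : Submodule.span ℂ (Set.range f)) : H) = f k

/-- A Riesz basis: the image of the standard orthonormal basis of `ℓ²` under a bounded invertible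
linear operator. -/
def IsRiesz (f : ι → H) : Prop :=
  ∃ U : lp (fun _ : ι => ℂ) 2 ≃L[ℂ] H, ∀ i, U (stdBasis ι i) = f i

/-- The bound on finite sums, for a family indexed by any type with a successor-like map. -/
theorem bound_of_operator {V : Submodule ℂ H} (T : V →ₗ[ℂ] V) (C : ℝ) (hC : ∀ x, ‖T x‖ ≤ C * ‖x‖)
    (g g' : ι → V) (hg : ∀ i, T (g i) = g' i) (F : Finset ι) (c : ι → ℂ) :
    ‖∑ i ∈ F, c i • (g' i : H)‖ ≤ C * ‖∑ i ∈ F, c i • (g i : H)‖ := by
  have h1 : T (∑ i ∈ F, c i • g i) = ∑ i ∈ F, c i • g' i := by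
    rw [map_sum]
    refine Finset.sum_congr rfl (fun i _ => ?_)
    rw [map_smul, hg]
  have h2 := hC (∑ i ∈ F, c i • g i)
  rw [h1] at h2
  simpa [Submodule.coe_norm] using h2

theorem bound_nat (f : ι → H) (σ : ℕ ≃ ι) (h : RepNatAux (fun k => f (σ k))) :
    ∃ C : ℝ, ∀ (F : Finset ι) (c : ι → ℂ),
      ‖∑ i ∈ F, c i • f (σ (σ.symm i + 1))‖ ≤ C * ‖∑ i ∈ F, c i • f i‖ := by
  obtain ⟨φ, T, hT⟩ := h
  refine ⟨‖T‖, fun F c => ?_⟩
  have h1 := bound_of_operator (H := H) T.toLinearMap ‖T‖ (fun x => T.le_opNorm x)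
    (fun i : ι => (T ^ (σ.symm i)) φ) (fun i => (T ^ (σ.symm i + 1)) φ) (by
      intro i
      rw [pow_succ']
      rfl) F c
  simp only [hT, Equiv.apply_symm_apply] at h1
  exact h1

theorem bound_int (f : ι → H) (σ : ℤ ≃ ι) (h : RepIntAux (fun k => f (σ k))) :
    ∃ C : ℝ, ∀ (F : Finset ι) (c : ι → ℂ),
      ‖∑ i ∈ F, c i • f (σ (σ.symm i + 1))‖ ≤ C * ‖∑ i ∈ F, c i • f i‖ := by
  obtain ⟨φ, T, ⟨C, hC⟩, hT⟩ := h
  refine ⟨C, fun F c => ?_⟩
  have h1 := bound_of_operator (H := H) T.toLinearMap C hC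
    (fun i : ι => (T ^ (σ.symm i)) φ) (fun i => (T ^ (σ.symm i + 1)) φ) (by
      intro i
      rw [add_comm, zpow_add, zpow_one]
      rfl) F c
  simp only [hT, Equiv.apply_symm_apply] at h1
  exact h1

/-- A Riesz basis: every ordering by `ℕ` has a bounded representation. -/
theorem repNat_of_riesz [CompleteSpace H] (f : ι → H) (hf : IsRiesz f) (σ : ℕ ≃ ι) :
    RepNatAux (fun k => f (σ k)) := by
  obtain ⟨U, hU⟩ := hf
  obtain ⟨S, hS⟩ := exists_isometry (stdBasis ι) (fun i => stdBasis ι (σ (σ.symm i + 1)))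
    ((stdBasis ι).orthonormal.comp _ (fun i j h => by
      have := σ.injective h
      exact σ.symm.injective (by omega)))
  set V := Submodule.span ℂ (Set.range (fun k => f (σ k))) with hV
  have hfV : ∀ k, f (σ k) ∈ V := fun k => Submodule.subset_span ⟨k, rfl⟩
  let T0 : H →L[ℂ] H := (U : lp (fun _ : ι => ℂ) 2 →L[ℂ] H).comp
    (S.toContinuousLinearMap.comp (U.symm : H →L[ℂ] lp (fun _ : ι => ℂ) 2))
  have hT0 : ∀ k, T0 (f (σ k)) = f (σ (k + 1)) := by
    intro k
    change U (S (U.symm (f (σ k)))) = _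
    rw [← hU, U.symm_apply_apply, hS, hU, Equiv.symm_apply_apply]
  have hmaps : ∀ x ∈ V, T0 x ∈ V := by
    intro x hx
    induction hx using Submodule.span_induction with
    | mem x hx =>
      obtain ⟨k, rfl⟩ := hx
      simp only
      rw [hT0]
      exact hfV _
    | zero => rw [map_zero]; exact V.zero_mem
    | add x y _ _ hx hy => rw [map_add]; exact V.add_mem hx hy
    | smul a x _ hx => rw [map_smul]; exact V.smul_mem a hx
  let T : V →L[ℂ] V := (T0.comp V.subtypeL).codRestrict V (fun x => hmaps x x.2)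
  refine ⟨⟨f (σ 0), hfV 0⟩, T, fun k => ?_⟩
  induction k with
  | zero => rfl
  | succ k ih =>
    rw [pow_succ']
    change T0 (((T ^ k) ⟨f (σ 0), hfV 0⟩ : V) : H) = _
    rw [ih, hT0]

/-- A Riesz basis: every ordering by `ℤ` has a bounded representation. -/
theorem repInt_of_riesz [CompleteSpace H] (f : ι → H) (hf : IsRiesz f) (σ : ℤ ≃ ι) :
    RepIntAux (fun k => f (σ k)) := by
  obtain ⟨U, hU⟩ := hf
  obtain ⟨S, hS⟩ := exists_isometry (stdBasis ι) (fun i => stdBasis ι (σ (σ.symm i + 1)))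
    ((stdBasis ι).orthonormal.comp _ (fun i j h => by
      have := σ.injective h
      exact σ.symm.injective (by omega)))
  obtain ⟨R, hR⟩ := exists_isometry (stdBasis ι) (fun i => stdBasis ι (σ (σ.symm i - 1)))
    ((stdBasis ι).orthonormal.comp _ (fun i j h => by
      have := σ.injective h
      exact σ.symm.injective (by omega)))
  set V := Submodule.span ℂ (Set.range (fun k => f (σ k))) with hV
  have hfV : ∀ k, f (σ k) ∈ V := fun k => Submodule.subset_span ⟨k, rfl⟩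
  let T0 : H →L[ℂ] H := (U : lp (fun _ : ι => ℂ) 2 →L[ℂ] H).comp
    (S.toContinuousLinearMap.comp (U.symm : H →L[ℂ] lp (fun _ : ι => ℂ) 2))
  let R0 : H →L[ℂ] H := (U : lp (fun _ : ι => ℂ) 2 →L[ℂ] H).comp
    (R.toContinuousLinearMap.comp (U.symm : H →L[ℂ] lp (fun _ : ι => ℂ) 2))
  have hT0 : ∀ k, T0 (f (σ k)) = f (σ (k + 1)) := by
    intro k
    change U (S (U.symm (f (σ k)))) = _
    rw [← hU, U.symm_apply_apply, hS, hU, Equiv.symm_apply_apply]
  have hR0 : ∀ k, R0 (f (σ k)) = f (σ (k - 1)) := by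
    intro k
    change U (R (U.symm (f (σ k)))) = _
    rw [← hU, U.symm_apply_apply, hR, hU, Equiv.symm_apply_apply]
  have hmaps : ∀ x ∈ V, T0 x ∈ V := by
    intro x hx
    induction hx using Submodule.span_induction with
    | mem x hx =>
      obtain ⟨k, rfl⟩ := hx
      simp only
      rw [hT0]
      exact hfV _
    | zero => rw [map_zero]; exact V.zero_mem
    | add x y _ _ hx hy => rw [map_add]; exact V.add_mem hx hy
    | smul a x _ hx => rw [map_smul]; exact V.smul_mem a hx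
  have hmapsR : ∀ x ∈ V, R0 x ∈ V := by
    intro x hx
    induction hx using Submodule.span_induction with
    | mem x hx =>
      obtain ⟨k, rfl⟩ := hx
      simp only
      rw [hR0]
      exact hfV _
    | zero => rw [map_zero]; exact V.zero_mem
    | add x y _ _ hx hy => rw [map_add]; exact V.add_mem hx hy
    | smul a x _ hx => rw [map_smul]; exact V.smul_mem a hx
  have hRT : ∀ x ∈ V, R0 (T0 x) = x := by
    intro x hx
    induction hx using Submodule.span_induction with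
    | mem x hx =>
      obtain ⟨k, rfl⟩ := hx
      simp only
      rw [hT0, hR0, add_sub_cancel_right]
    | zero => rw [map_zero, map_zero]
    | add x y _ _ hx hy => rw [map_add, map_add, hx, hy]
    | smul a x _ hx => rw [map_smul, map_smul, hx]
  have hTR : ∀ x ∈ V, T0 (R0 x) = x := by
    intro x hx
    induction hx using Submodule.span_induction with
    | mem x hx =>
      obtain ⟨k, rfl⟩ := hx
      simp only
      rw [hR0, hT0, sub_add_cancel]
    | zero => rw [map_zero, map_zero]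
    | add x y _ _ hx hy => rw [map_add, map_add, hx, hy]
    | smul a x _ hx => rw [map_smul, map_smul, hx]
  let T1 : V →ₗ[ℂ] V := (T0.toLinearMap).restrict hmaps
  let R1 : V →ₗ[ℂ] V := (R0.toLinearMap).restrict hmapsR
  let T : V ≃ₗ[ℂ] V := LinearEquiv.ofLinearMap T1 R1
    (by ext x; exact hTR x x.2) (by ext x; exact hRT x x.2)
  refine ⟨⟨f (σ 0), hfV 0⟩, T, ⟨‖T0‖, fun x => ?_⟩, fun k => ?_⟩
  · exact T0.le_opNorm (x : H)
  · have hcoe : ∀ x : V, ((T x : V) : H) = T0 x := fun x => rfl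
    have hcoe' : ∀ x : V, ((T⁻¹ x : V) : H) = R0 x := fun x => rfl
    induction k using Int.induction_on with
    | zero => rfl
    | succ i ih =>
      rw [add_comm, zpow_add, zpow_one]
      change T0 (((T ^ (i : ℤ)) ⟨f (σ 0), hfV 0⟩ : V) : H) = _
      rw [ih, hT0, add_comm]
    | pred i ih =>
      rw [sub_eq_add_neg, add_comm, zpow_add, zpow_neg_one]
      change R0 (((T ^ (-(i : ℤ))) ⟨f (σ 0), hfV 0⟩ : V) : H) = _
      rw [ih, hR0, sub_eq_add_neg, add_comm]

/-- A covariant frame with a bounded representation of an ordering by `ℕ` is a Riesz basis. -/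
theorem riesz_of_repNat [CompleteSpace H] (f : ℤ × ℤ → H) (hf : IsFrame f)
    (hne : ∃ v, f v ≠ 0)
    (π : ℤ × ℤ → H →ₗᵢ[ℂ] H) (γ : ℤ × ℤ → ℤ × ℤ → ℂ) (hγ : ∀ u v, ‖γ u v‖ = 1)
    (hπ : ∀ u v, π u (f v) = γ u v • f (v + u)) (σ : ℕ ≃ ℤ × ℤ)
    (hrep : RepNatAux (fun k => f (σ k))) : IsRiesz f := by
  obtain ⟨U, hU, hsurj⟩ := exists_synthesis f hf
  obtain ⟨S, hS⟩ := exists_isometry (stdBasis (ℤ × ℤ))
    (fun i => stdBasis (ℤ × ℤ) (σ (σ.symm i + 1)))
    ((stdBasis (ℤ × ℤ)).orthonormal.comp _ (fun i j h => by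
      have := σ.injective h
      exact σ.symm.injective (by omega)))
  obtain ⟨C, hC⟩ := bound_nat f σ hrep
  have hinv := ker_invariant (stdBasis (ℤ × ℤ)) U S C (by
    intro F c
    simp only [hS, hU]
    exact hC F c)
  have hcomp : CompleteSpace U.ker := U.isClosed_ker.completeSpace_coe
  have hcov := covariance (stdBasis (ℤ × ℤ)) U f hU π γ hγ hπ
  have hno : ∃ k, stdBasis (ℤ × ℤ) k ∉ U.ker := by
    obtain ⟨v, hv⟩ := hne
    refine ⟨v, fun h => hv ?_⟩
    rw [← hU v]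
    exact h
  have hbot := eq_bot_nat (stdBasis (ℤ × ℤ)) S σ (by
    intro k
    rw [hS, Equiv.symm_apply_apply]) U.ker hinv _
    (norm_proj_const (stdBasis (ℤ × ℤ)) U.ker hcov) hno
  have hinj : Function.Injective U := LinearMap.ker_eq_bot.mp hbot
  exact ⟨ContinuousLinearEquiv.ofBijective U hbot (LinearMap.range_eq_top.mpr hsurj),
    fun i => by rw [← hU i]; rfl⟩

/-- A covariant frame with a bounded representation of an ordering by `ℤ` is a Riesz basis. -/
theorem riesz_of_repInt [CompleteSpace H] (f : ℤ × ℤ → H) (hf : IsFrame f)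
    (hne : ∃ v, f v ≠ 0)
    (π : ℤ × ℤ → H →ₗᵢ[ℂ] H) (γ : ℤ × ℤ → ℤ × ℤ → ℂ) (hγ : ∀ u v, ‖γ u v‖ = 1)
    (hπ : ∀ u v, π u (f v) = γ u v • f (v + u)) (σ : ℤ ≃ ℤ × ℤ)
    (hrep : RepIntAux (fun k => f (σ k))) : IsRiesz f := by
  obtain ⟨U, hU, hsurj⟩ := exists_synthesis f hf
  obtain ⟨S, hS⟩ := exists_isometry (stdBasis (ℤ × ℤ))
    (fun i => stdBasis (ℤ × ℤ) (σ (σ.symm i + 1)))
    ((stdBasis (ℤ × ℤ)).orthonormal.comp _ (fun i j h => by
      have := σ.injective h
      exact σ.symm.injective (by omega)))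
  obtain ⟨C, hC⟩ := bound_int f σ hrep
  have hinv := ker_invariant (stdBasis (ℤ × ℤ)) U S C (by
    intro F c
    simp only [hS, hU]
    exact hC F c)
  have hcomp : CompleteSpace U.ker := U.isClosed_ker.completeSpace_coe
  have hcov := covariance (stdBasis (ℤ × ℤ)) U f hU π γ hγ hπ
  have hno : ∃ k, stdBasis (ℤ × ℤ) k ∉ U.ker := by
    obtain ⟨v, hv⟩ := hne
    refine ⟨v, fun h => hv ?_⟩
    rw [← hU v]
    exact h
  have hbot := eq_bot_int (stdBasis (ℤ × ℤ)) S σ (by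
    intro k
    rw [hS, Equiv.symm_apply_apply]) U.ker hinv hcov hno
  exact ⟨ContinuousLinearEquiv.ofBijective U hbot (LinearMap.range_eq_top.mpr hsurj),
    fun i => by rw [← hU i]; rfl⟩

/-- `f k = T^k φ` for all `k ∈ ℕ`, for some vector `φ` and some bounded linear operator `T`. -/
def IsOrbitNat {V : Type*} [NormedAddCommGroup V] [NormedSpace ℂ V] (f : ℕ → V) : Prop :=
  ∃ (φ : V) (T : V →L[ℂ] V), ∀ k : ℕ, (T ^ k) φ = f k

/-- `f k = T^k φ` for all `k ∈ ℤ`, for some vector `φ` and some bijective bounded linear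
operator `T`. -/
def IsOrbitInt {V : Type*} [NormedAddCommGroup V] [NormedSpace ℂ V] (f : ℤ → V) : Prop :=
  ∃ (φ : V) (T : V ≃ₗ[ℂ] V), (∃ C : ℝ, ∀ x, ‖T x‖ ≤ C * ‖x‖) ∧ ∀ k : ℤ, (T ^ k) φ = f k

/-- A family, viewed as a family in its linear span. -/
def inSpan {κ : Type*} (f : κ → H) (k : κ) : Submodule.span ℂ (Set.range f) :=
  ⟨f k, Submodule.subset_span ⟨k, rfl⟩⟩

/-- Bounded representation of a sequence indexed by `ℕ`. -/
def RepNat (f : ℕ → H) : Prop := IsOrbitNat (inSpan f)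

/-- Bounded representation of a sequence indexed by `ℤ`. -/
def RepInt (f : ℤ → H) : Prop := IsOrbitInt (inSpan f)

theorem repNat_iff (f : ℕ → H) : RepNat f ↔ RepNatAux f := by
  constructor
  · rintro ⟨φ, T, h⟩
    exact ⟨φ, T, fun k => congrArg Subtype.val (h k)⟩
  · rintro ⟨φ, T, h⟩
    exact ⟨φ, T, fun k => Subtype.ext (h k)⟩

theorem repInt_iff (f : ℤ → H) : RepInt f ↔ RepIntAux f := by
  constructor
  · rintro ⟨φ, T, hC, h⟩
    exact ⟨φ, T, hC, fun k => congrArg Subtype.val (h k)⟩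
  · rintro ⟨φ, T, hC, h⟩
    exact ⟨φ, T, hC, fun k => Subtype.ext (h k)⟩

/-- A Riesz basis: a complete family with two-sided Riesz bounds. -/
def IsRieszBasis (f : ι → H) : Prop :=
  (Submodule.span ℂ (Set.range f)).topologicalClosure = ⊤ ∧
  ∃ A B : ℝ, 0 < A ∧ 0 < B ∧ ∀ (F : Finset ι) (c : ι → ℂ),
    A * ∑ i ∈ F, ‖c i‖ ^ 2 ≤ ‖∑ i ∈ F, c i • f i‖ ^ 2 ∧
    ‖∑ i ∈ F, c i • f i‖ ^ 2 ≤ B * ∑ i ∈ F, ‖c i‖ ^ 2

theorem IsRiesz.isRieszBasis {f : ι → H} (hf : IsRiesz f) (hne : ∃ v, f v ≠ 0) :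
    IsRieszBasis f := by
  obtain ⟨U, hU⟩ := hf
  have hnorm : ∀ (F : Finset ι) (c : ι → ℂ),
      ‖∑ i ∈ F, c i • stdBasis ι i‖ ^ 2 = ∑ i ∈ F, ‖c i‖ ^ 2 := by
    intro F c
    have h := (stdBasis ι).orthonormal.inner_sum c c F
    have h4 : ⟪∑ i ∈ F, c i • stdBasis ι i, ∑ i ∈ F, c i • stdBasis ι i⟫_ℂ
        = ((‖∑ i ∈ F, c i • stdBasis ι i‖ ^ 2 : ℝ) : ℂ) := by
      rw [inner_self_eq_norm_sq_to_K]
      norm_cast
    rw [h4] at h
    have h2 : ∑ i ∈ F, (starRingEnd ℂ) (c i) * c i = ((∑ i ∈ F, ‖c i‖ ^ 2 : ℝ) : ℂ) := by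
      push_cast
      refine Finset.sum_congr rfl (fun i _ => ?_)
      rw [← Complex.normSq_eq_conj_mul_self, Complex.normSq_eq_norm_sq]
      push_cast
      rfl
    rw [h2] at h
    exact Complex.ofReal_injective h
  have hUsum : ∀ (F : Finset ι) (c : ι → ℂ),
      U (∑ i ∈ F, c i • stdBasis ι i) = ∑ i ∈ F, c i • f i := by
    intro F c
    rw [map_sum]
    refine Finset.sum_congr rfl (fun i _ => ?_)
    rw [map_smul, hU]
  obtain ⟨v, hv⟩ := hne
  have hUn : 0 < ‖(U : lp (fun _ : ι => ℂ) 2 →L[ℂ] H)‖ := by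
    rw [norm_pos_iff]
    intro h0
    apply hv
    rw [← hU v]
    exact DFunLike.congr_fun h0 _
  have hUs : 0 < ‖(U.symm : H →L[ℂ] lp (fun _ : ι => ℂ) 2)‖ := by
    rw [norm_pos_iff]
    intro h0
    have h1 : stdBasis ι v = 0 := by
      rw [← U.symm_apply_apply (stdBasis ι v)]
      exact DFunLike.congr_fun h0 _
    have h2 := (stdBasis ι).orthonormal.1 v
    rw [h1, norm_zero] at h2
    exact zero_ne_one h2
  refine ⟨?_, (‖(U.symm : H →L[ℂ] lp (fun _ : ι => ℂ) 2)‖ ^ 2)⁻¹,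
    ‖(U : lp (fun _ : ι => ℂ) 2 →L[ℂ] H)‖ ^ 2, by positivity, by positivity, ?_⟩
  · rw [eq_top_iff]
    intro y _
    have h1 : HasSum (fun i => (stdBasis ι).repr (U.symm y) i • f i) y := by
      have h := ((stdBasis ι).hasSum_repr (U.symm y)).mapL
        (U : lp (fun _ : ι => ℂ) 2 →L[ℂ] H)
      have h2 : (U : lp (fun _ : ι => ℂ) 2 →L[ℂ] H) (U.symm y) = y := U.apply_symm_apply y
      rw [h2] at h
      have h3 : ∀ i, (U : lp (fun _ : ι => ℂ) 2 →L[ℂ] H)
          ((stdBasis ι).repr (U.symm y) i • stdBasis ι i)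
          = (stdBasis ι).repr (U.symm y) i • f i := by
        intro i
        rw [map_smul]
        congr 1
        exact hU i
      simp_rw [h3] at h
      exact h
    change y ∈ closure ((Submodule.span ℂ (Set.range f) : Submodule ℂ H) : Set H)
    refine mem_closure_of_tendsto h1 (Filter.Eventually.of_forall (fun F => ?_))
    exact Submodule.sum_mem _ (fun i _ => Submodule.smul_mem _ _
      (Submodule.subset_span ⟨i, rfl⟩))
  · intro F c
    rw [← hnorm F c, ← hUsum F c]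
    constructor
    · have h1 := (U.symm : H →L[ℂ] lp (fun _ : ι => ℂ) 2).le_opNorm
        (U (∑ i ∈ F, c i • stdBasis ι i))
      have h2 : (U.symm : H →L[ℂ] lp (fun _ : ι => ℂ) 2) (U (∑ i ∈ F, c i • stdBasis ι i))
          = ∑ i ∈ F, c i • stdBasis ι i := U.symm_apply_apply _
      rw [h2] at h1
      rw [inv_mul_le_iff₀ (by positivity), ← mul_pow]
      exact pow_le_pow_left₀ (norm_nonneg _) h1 2
    · rw [← mul_pow]
      exact pow_le_pow_left₀ (norm_nonneg _)
        ((U : lp (fun _ : ι => ℂ) 2 →L[ℂ] H).le_opNorm _) 2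

end

end Pool.Agent.Q166.GF
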